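import Pool.Agent.H98.CE.Targets

/-!
# MP_65efe8_pr, row DSA: dressing
-/

set_option autoImplicit false

open MeasureTheory ProbabilityTheory Filter Topology
open Pool.Agent.H95 Pool.Agent.H95.Cop Pool.Agent.H98.CE
open Pool.Agent.H55.CG (pz VV Mo)

namespace Pool.Agent.H46.CEL

/-- the choice of the constants -/
theorem dsa_choice (e1 q1 e : ℝ) (h0 : 0 < e1) (h1 : e1 < 1) (hq0 : 0 < q1) (hq1 : q1 ≤ 1)
    (he : 0 ≤ e) (h : e * (2 - e1 * q1) ^ 2 < 1) :
    ∃ (k : ℕ) (r q : ℝ), 0 < r ∧ r < e1 * q1 / 2 ∧ 0 < q ∧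
      q < ∑ i ∈ Finset.range (k + 1), r ^ i ∧ 4 * e < q ^ 2 := by
  set R := e1 * q1 / 2 with hR
  have hR0 : 0 < R := by positivity
  have hR1 : R < 1 / 2 := by
    have : e1 * q1 < 1 := by nlinarith
    linarith
  have hf : 4 * e * (1 - R) ^ 2 < 1 := by
    have : 4 * e * (1 - R) ^ 2 = e * (2 - e1 * q1) ^ 2 := by rw [hR]; ring
    linarith
  have hc : Continuous (fun x : ℝ => 4 * e * (1 - x) ^ 2) := by fun_prop
  have e1' : ∀ᶠ x in 𝓝[<] R, 4 * e * (1 - x) ^ 2 < 1 :=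
    (hc.continuousAt.eventually (gt_mem_nhds hf)).filter_mono nhdsWithin_le_nhds
  have e2' : ∀ᶠ x in 𝓝[<] R, 0 < x := (lt_mem_nhds hR0).filter_mono nhdsWithin_le_nhds
  have e3' : ∀ᶠ x in 𝓝[<] R, x < R := self_mem_nhdsWithin
  obtain ⟨r, hr1, hr0, hrR⟩ := (e1'.and (e2'.and e3')).exists
  have hr1' : r < 1 := by linarith
  have hsum := (hasSum_geometric_of_lt_one hr0.le hr1').tendsto_sum_nat
  have hsq : Real.sqrt (4 * e) < (1 - r)⁻¹ := by
    have h1r : 0 < (1 - r) ^ 2 := by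
      have : 0 < 1 - r := by linarith
      positivity
    rw [Real.sqrt_lt' (inv_pos.2 (by linarith)), inv_pow, ← one_div, lt_div_iff₀ h1r]
    exact hr1
  have hev := (hsum.eventually (lt_mem_nhds hsq)).and (eventually_ge_atTop 1)
  obtain ⟨K, hK, hK1⟩ := hev.exists
  obtain ⟨k, rfl⟩ : ∃ k, K = k + 1 := ⟨K - 1, by omega⟩
  have hs0 : 0 ≤ Real.sqrt (4 * e) := Real.sqrt_nonneg _
  refine ⟨k, r, (Real.sqrt (4 * e) + ∑ i ∈ Finset.range (k + 1), r ^ i) / 2, hr0, hrR, ?_, ?_, ?_⟩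
  · linarith
  · linarith
  · have h5 : Real.sqrt (4 * e) < (Real.sqrt (4 * e) + ∑ i ∈ Finset.range (k + 1), r ^ i) / 2 := by
      linarith
    have h6 := Real.sq_sqrt (show 0 ≤ 4 * e by positivity)
    have h7 := pow_lt_pow_left₀ h5 hs0 (two_ne_zero)
    linarith

theorem dsa_two {α : ℝ} (h0 : 0 < α) : 1 - α ≤ (2 : ℝ) ^ (1 / (1 + α) - 1) := by
  have h1 : -α ≤ 1 / (1 + α) - 1 := by
    rw [le_sub_iff_add_le, le_div_iff₀ (by linarith)]
    nlinarith
  have h2 : (2 : ℝ) ^ (-α) ≤ (2 : ℝ) ^ (1 / (1 + α) - 1) :=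
    Real.rpow_le_rpow_of_exponent_le (by norm_num) h1
  have h3 : (2 : ℝ) ^ (-α) = Real.exp (Real.log 2 * (-α)) := Real.rpow_def_of_pos (by norm_num) _
  have h4 := Real.add_one_le_exp (Real.log 2 * (-α))
  have h5 : Real.log 2 * α ≤ 1 * α :=
    mul_le_mul_of_nonneg_right (by linarith [Real.log_two_lt_d9]) h0.le
  linarith

theorem pf_DSA (hDRS : T_DRS) (hSLM : T_SLM) (hOMN : T_OMN) (hAS1 : T_AS1) (hAS2 : T_AS2) :
    T_DSA := by
  intro d ϑ s e1 η e J t hd hϑ hϑ1 he10 he11 hη hOB ht he heq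
  set q1 := 1 - 2 * Real.sqrt ϑ with hq1
  have hsϑ : Real.sqrt ϑ ≤ 1 / 4 := by
    rw [Real.sqrt_le_left (by norm_num)]
    norm_num
    linarith
  have hsϑ0 : 0 ≤ Real.sqrt ϑ := Real.sqrt_nonneg _
  have hq10 : 0 < q1 := by linarith
  have hq11 : q1 ≤ 1 := by linarith
  obtain ⟨k, r, q, hr0, hrR, hq0, hqP, hqe⟩ := dsa_choice e1 q1 e he10 he11 hq10 hq11 he heq
  set P := ∑ i ∈ Finset.range (k + 1), r ^ i with hP
  have hP1 : 1 ≤ P := by
    rw [hP, Finset.sum_range_succ', pow_zero]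
    have : 0 ≤ ∑ i ∈ Finset.range k, r ^ (i + 1) := Finset.sum_nonneg fun i _ => by positivity
    linarith
  set R := e1 * q1 / 2 with hR
  have hR0 : 0 < R := by positivity
  set δ0 := (R - r) / (2 * R) with hδ0def
  have hδ0 : 0 < δ0 := div_pos (by linarith) (by linarith)
  have hRδ : R * (1 - 2 * δ0) = r := by
    rw [hδ0def]
    field_simp
    ring
  have hδ0' : 0 ≤ 1 - 2 * δ0 := by
    by_contra hcon
    have h1 : R * (1 - 2 * δ0) < 0 := mul_neg_of_pos_of_neg hR0 (not_le.1 hcon)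
    linarith
  set δ1 := (P - q) / (1 + P) with hδ1def
  have hδ1 : 0 < δ1 := div_pos (by linarith) (by linarith)
  have hδ1' : δ1 < 1 := by
    rw [hδ1def, div_lt_one (by linarith)]
    linarith
  have hδP : q ≤ (1 - δ1) * (P - δ1) := by
    have h1 : δ1 * (1 + P) = P - q := by
      rw [hδ1def]
      field_simp
    have h2 : (1 - δ1) * (P - δ1) = P - δ1 * (1 + P) + δ1 ^ 2 := by ring
    have h3 : 0 ≤ δ1 ^ 2 := sq_nonneg _
    linarith only [h1, h2, h3]
  have hq2 : 0 < q ^ 2 := by positivity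
  set δ2 := 1 - 4 * e / q ^ 2 with hδ2def
  have hδ2 : 0 < δ2 := by
    have : 4 * e / q ^ 2 < 1 := (div_lt_one hq2).2 hqe
    linarith
  have hδ2' : δ2 ≤ 1 := by
    have : 0 ≤ 4 * e / q ^ 2 := by positivity
    linarith
  have hδq : (1 - δ2) * q ^ 2 = 4 * e := by
    rw [hδ2def]
    field_simp
    ring
  set C1 := 1 / δ0 with hC1def
  have hC1 : 0 < C1 := by positivity
  have hC1' : Real.exp (-C1) ≤ δ0 := by
    have h1 := Real.add_one_le_exp C1
    have h2 : C1 ≤ Real.exp C1 := by linarith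
    rw [Real.exp_neg]
    have h3 : (Real.exp C1)⁻¹ ≤ C1⁻¹ := inv_anti₀ hC1 h2
    have h4 : C1⁻¹ = δ0 := by rw [hC1def, one_div, inv_inv]
    exact h3.trans h4.le
  set a2 := min (min (δ1 / 2) (1 / 2)) (δ2 / (10 * k + 10)) with ha2def
  have ha2 : 0 < a2 := by
    refine lt_min (lt_min (by positivity) (by norm_num)) (by positivity)
  have ha21 : a2 ≤ δ1 / 2 := (min_le_left _ _).trans (min_le_left _ _)
  have ha22 : a2 ≤ 1 / 2 := (min_le_left _ _).trans (min_le_right _ _)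
  have ha23 : a2 ≤ δ2 / (10 * k + 10) := min_le_right _ _
  obtain ⟨c, hOBc⟩ := hOB
  refine ⟨c + 4, ?_⟩
  have A1 := (hAS1 c a2 (η / 4) ha2 (by positivity)).2.1
  have A2 := (hAS1 (c + 1) δ0 1 hδ0 one_pos).2.2.2
  set m := min (min (min (1 / 4) (η / (4 * C1))) (min (1 / η) C1)) δ1 with hm
  have hm0 : 0 < m := by
    refine lt_min (lt_min (lt_min (by norm_num) (by positivity)) (lt_min (by positivity) hC1)) hδ1
  have A3 : ∀ᶠ α : ℝ in 𝓝[>] 0, α ≤ m :=
    ((gt_mem_nhds hm0).filter_mono nhdsWithin_le_nhds).mono fun x hx => le_of_lt hx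
  filter_upwards [hOBc, A1, A2, A3, self_mem_nhdsWithin] with α hα1 hα2 hα3 hα4 hα0
  have hα0 : 0 < α := hα0
  have b1 : α ≤ 1 / 4 := hα4.trans ((min_le_left _ _).trans ((min_le_left _ _).trans (min_le_left _ _)))
  have b2 : α ≤ η / (4 * C1) :=
    hα4.trans ((min_le_left _ _).trans ((min_le_left _ _).trans (min_le_right _ _)))
  have b3 : α ≤ 1 / η :=
    hα4.trans ((min_le_left _ _).trans ((min_le_right _ _).trans (min_le_left _ _)))
  have b4 : α ≤ C1 :=
    hα4.trans ((min_le_left _ _).trans ((min_le_right _ _).trans (min_le_right _ _)))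
  have b5 : α ≤ δ1 := hα4.trans (min_le_right _ _)
  intro K ν ℓ hHY
  obtain ⟨n, hn1, hnc, hobj⟩ := hα1 K ν ℓ hHY
  obtain ⟨hν, hexp, hℓ, hHK, hMM⟩ := hHY
  obtain ⟨-, -, -, m4, -, -, -, -, -, m10, -⟩ := hMM
  haveI := hν
  obtain ⟨hslm, -⟩ := hSLM K ν hexp ℓ ϑ hℓ hϑ (by linarith) m4 m10
  set u := 1 / α with hu
  have hu0 : 0 < u := by positivity
  have hu4 : 4 ≤ u := by
    rw [hu, le_div_iff₀ hα0]
    linarith
  have huη : η ≤ u := by
    rw [hu, le_div_iff₀ hα0]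
    rw [le_div_iff₀ hη] at b3
    linarith
  have hv1 : 1 ≤ u ^ c := one_le_pow₀ (by linarith)
  set β := η / α ^ 2 with hβ
  have hβu : β = η * u ^ 2 := by
    rw [hβ, hu]
    field_simp
  have hβ0 : 0 < β := by positivity
  have hn1r : (1 : ℝ) ≤ n := by exact_mod_cast hn1
  have hn0r : (0 : ℝ) < n := by linarith
  set x := Real.exp (C1 / α) with hx
  have hx2 : 2 ≤ x := by
    have h1 := Real.add_one_le_exp (C1 / α)
    have h2 : 1 ≤ C1 / α := by rwa [one_le_div hα0]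
    linarith
  set g := Real.exp (η / 4 / α ^ 2) with hg
  have hg0 : 0 < g := Real.exp_pos _
  have hgg : g * g = Real.exp (β / 2) := by
    rw [hg, ← Real.exp_add, hβ]
    congr 1
    ring
  have hxg : x ≤ g := by
    refine Real.exp_le_exp.2 ?_
    rw [div_le_div_iff₀ hα0 (by positivity)]
    rw [le_div_iff₀ (by positivity)] at b2
    have h1 := mul_le_mul_of_nonneg_right b2 hα0.le
    linarith only [h1]
  have hng : (n : ℝ) ≤ a2 * g := by
    have h1 : u ^ c ≤ a2 * g := by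
      have h2 : u ^ c * Real.exp (-(η / 4 / α ^ 2)) * g ≤ a2 * g :=
        mul_le_mul_of_nonneg_right hα2 hg0.le
      have h3 : u ^ c * Real.exp (-(η / 4 / α ^ 2)) * g = u ^ c := by
        rw [mul_assoc, hg, ← Real.exp_add, neg_add_cancel, Real.exp_zero, mul_one]
      linarith
    exact hnc.trans h1
  set ghi := ⌈x⌉₊ with hghi
  have hG1 : x ≤ ghi := Nat.le_ceil _
  have hG2 : (ghi : ℝ) < x + 1 := Nat.ceil_lt_add_one (by linarith)
  have hG4 : 2 ≤ ghi := by
    have : (2 : ℝ) ≤ ghi := hx2.trans hG1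
    exact_mod_cast this
  set M := ⌊Real.exp (β / 2) / n⌋₊ with hM
  have hM1 : (M : ℝ) ≤ Real.exp (β / 2) / n := Nat.floor_le (by positivity)
  have hM2 : Real.exp (β / 2) / n < M + 1 := Nat.lt_floor_add_one _
  have hM3 : (M : ℝ) * n ≤ Real.exp (β / 2) := by rwa [le_div_iff₀ hn0r] at hM1
  have hxM : x ≤ 2 * a2 * M := by
    rw [div_lt_iff₀ hn0r, ← hgg] at hM2
    have h1 : ((M : ℝ) + 1) * n ≤ (M + 1) * (a2 * g) :=
      mul_le_mul_of_nonneg_left hng (by positivity)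
    have h2 : g * g < ((M + 1) * a2) * g := by
      calc g * g < (M + 1) * n := hM2
        _ ≤ (M + 1) * (a2 * g) := h1
        _ = ((M + 1) * a2) * g := by ring
    have h3 : g < (M + 1) * a2 := lt_of_mul_lt_mul_right h2 hg0.le
    have h4 : x < M * a2 + a2 := by linarith only [h3, hxg]
    linarith only [h4, ha22, hx2]
  have hM0 : (0 : ℝ) < M := by
    by_contra hcon
    have h1 : 2 * a2 * (M : ℝ) ≤ 0 := mul_nonpos_of_nonneg_of_nonpos (by positivity) (not_lt.1 hcon)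
    linarith
  have hMn : 1 ≤ M := by exact_mod_cast Nat.cast_pos.1 hM0
  have hkx : (5 * (k : ℝ)) * x ≤ δ2 * M := by
    have h1 : a2 * (10 * k + 10) ≤ δ2 := by rwa [le_div_iff₀ (by positivity)] at ha23
    have h2 : (5 * (k : ℝ) + 5) * x ≤ (5 * k + 5) * (2 * a2 * M) :=
      mul_le_mul_of_nonneg_left hxM (by positivity)
    have h3 : (5 * (k : ℝ) + 5) * (2 * a2 * M) = a2 * (10 * k + 10) * M := by ring
    have h4 : a2 * (10 * k + 10) * M ≤ δ2 * M := mul_le_mul_of_nonneg_right h1 hM0.le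
    linarith only [h2, h3, h4, hx2]
  have hkg : 2 * (k : ℝ) * ghi + k ≤ δ2 * M := by
    have hk0 : (0 : ℝ) ≤ k := Nat.cast_nonneg k
    have h1 : 2 * (k : ℝ) * ghi ≤ 2 * k * (x + 1) :=
      mul_le_mul_of_nonneg_left hG2.le (by positivity)
    have h2 : (3 * (k : ℝ)) * 1 ≤ 3 * k * x := mul_le_mul_of_nonneg_left (by linarith) (by positivity)
    linarith
  have hkgN : 2 * k * ghi + k ≤ M := by
    have h1 : δ2 * M ≤ 1 * M := mul_le_mul_of_nonneg_right hδ2' hM0.le
    have h2 : 2 * (k : ℝ) * ghi + k ≤ M := by linarith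
    exact_mod_cast h2
  have hA : k * (ghi + 1) ≤ M := by
    have h1 : k * (ghi + 1) = k * ghi + k := by ring
    have h2 : 2 * k * ghi = k * ghi + k * ghi := by ring
    omega
  -- the sum of the jumps
  set κ := e1 * α / 2 with hκ
  have hκ0 : 0 < κ := by positivity
  set T := ∑ s ∈ Finset.Ico 2 ghi, lk α κ (s + n + 1) with hT
  obtain ⟨hs1, hs2, -⟩ := hAS2 α hα0
  have hTe : T = κ * ∑ w ∈ Finset.Ico (2 + (n + 1)) (ghi + (n + 1)), (w : ℝ) ^ (-(1 + α)) := by
    rw [hT, ← Finset.sum_Ico_add', Finset.mul_sum]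
    refine Finset.sum_congr rfl fun s _ => ?_
    unfold lk
    rw [add_assoc]
  have hT1 : T ≤ 1 / 2 := by
    have h1 := hs2 (2 + (n + 1)) (ghi + (n + 1)) (by omega)
    have h2 : κ * ∑ w ∈ Finset.Ico (2 + (n + 1)) (ghi + (n + 1)), (w : ℝ) ^ (-(1 + α)) ≤
        κ * (1 / α) := mul_le_mul_of_nonneg_left h1 hκ0.le
    have h3 : κ * (1 / α) = e1 / 2 := by
      rw [hκ]
      field_simp
    rw [hTe]
    linarith
  have hT2 : e1 / 2 * (1 - 2 * δ0) ≤ T := by
    have h1 := hs1 (2 + (n + 1)) (ghi + (n + 1)) (by omega) (by omega)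
    have h2 := mul_le_mul_of_nonneg_left h1 hκ0.le
    have h3 : κ * ((((2 + (n + 1) : ℕ) : ℝ) ^ (-α) - ((ghi + (n + 1) : ℕ) : ℝ) ^ (-α)) / α) =
        e1 / 2 * (((2 + (n + 1) : ℕ) : ℝ) ^ (-α) - ((ghi + (n + 1) : ℕ) : ℝ) ^ (-α)) := by
      rw [hκ]
      field_simp
    have h4 : 1 - δ0 ≤ ((2 + (n + 1) : ℕ) : ℝ) ^ (-α) := by
      have h5 : ((2 + (n + 1) : ℕ) : ℝ) ≤ u ^ (c + 1) := by
        push_cast
        rw [pow_succ]
        have h6 : u ^ c * 4 ≤ u ^ c * u := mul_le_mul_of_nonneg_left hu4 (by positivity)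
        linarith
      have h6 : (u ^ (c + 1)) ^ (-α) ≤ ((2 + (n + 1) : ℕ) : ℝ) ^ (-α) :=
        Real.rpow_le_rpow_of_nonpos (by positivity) h5 (by linarith)
      have h7 : (u ^ (c + 1)) ^ (-α) = α ^ (((c + 1 : ℕ) : ℝ) * α) := by
        rw [hu, one_div, inv_pow, Real.inv_rpow (by positivity), Real.rpow_neg (by positivity),
          inv_inv, ← Real.rpow_natCast, ← Real.rpow_mul hα0.le]
      rw [h7] at h6
      exact hα3.1.trans h6
    have h5 : ((ghi + (n + 1) : ℕ) : ℝ) ^ (-α) ≤ δ0 := by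
      have h6 : x ≤ ((ghi + (n + 1) : ℕ) : ℝ) := by
        push_cast
        linarith
      have h7 : ((ghi + (n + 1) : ℕ) : ℝ) ^ (-α) ≤ x ^ (-α) :=
        Real.rpow_le_rpow_of_nonpos (by linarith) h6 (by linarith)
      have h8 : x ^ (-α) = Real.exp (-C1) := by
        rw [hx, ← Real.exp_mul]
        congr 1
        field_simp
      linarith
    have h6 : e1 / 2 * (1 - 2 * δ0) ≤
        e1 / 2 * (((2 + (n + 1) : ℕ) : ℝ) ^ (-α) - ((ghi + (n + 1) : ℕ) : ℝ) ^ (-α)) :=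
      mul_le_mul_of_nonneg_left (by linarith) (by positivity)
    rw [hTe]
    linarith
  set I := ∫ x : ℕ → ℝ, qq K ℓ x 0 ∂(iid ν) with hI
  have hTI : r ≤ T * I := by
    have h1 : e1 / 2 * (1 - 2 * δ0) * q1 ≤ T * I :=
      mul_le_mul hT2 hslm hq10.le ((by positivity : 0 ≤ e1 / 2 * (1 - 2 * δ0)).trans hT2)
    have h2 : e1 / 2 * (1 - 2 * δ0) * q1 = r := by
      rw [← hRδ, hR]
      ring
    linarith
  have hsum : P ≤ ∑ i ∈ Finset.range (k + 1), (T * I) ^ i :=
    Finset.sum_le_sum fun i _ => pow_le_pow_left₀ hr0.le hTI i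
  have hsmall : 2 * ((M : ℝ) * (n * u ^ c * Real.exp (-(β / (1 + α))))) ≤ δ1 := by
    have h1 : (M : ℝ) * (n * u ^ c * Real.exp (-(β / (1 + α)))) =
        (M * n) * (u ^ c * Real.exp (-(β / (1 + α)))) := by ring
    have h2 : (M * n : ℝ) * (u ^ c * Real.exp (-(β / (1 + α)))) ≤
        Real.exp (β / 2) * (u ^ c * Real.exp (-(β / (1 + α)))) :=
      mul_le_mul_of_nonneg_right hM3 (by positivity)
    have h3 : Real.exp (β / 2) * (u ^ c * Real.exp (-(β / (1 + α)))) =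
        u ^ c * Real.exp (β / 2 + -(β / (1 + α))) := by
      rw [Real.exp_add]
      ring
    have h4 : β / 2 + -(β / (1 + α)) ≤ -(η / 4 / α ^ 2) := by
      have h5 : 3 / 4 * β ≤ β / (1 + α) := by
        rw [le_div_iff₀ (by linarith only [hα0])]
        have h7 := mul_le_mul_of_nonneg_left b1 hβ0.le
        linarith only [h7, hβ0]
      have h6 : η / 4 / α ^ 2 = β / 4 := by
        rw [hβ]
        ring
      linarith
    have h5 : u ^ c * Real.exp (β / 2 + -(β / (1 + α))) ≤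
        u ^ c * Real.exp (-(η / 4 / α ^ 2)) :=
      mul_le_mul_of_nonneg_left (Real.exp_le_exp.2 h4) (by positivity)
    linarith
  have hq : q ≤ (2 : ℝ) ^ (1 / (1 + α) - 1) * (∑ i ∈ Finset.range (k + 1), (T * I) ^ i -
      2 * (M * (n * u ^ c * Real.exp (-(β / (1 + α)))))) := by
    refine hδP.trans ?_
    refine mul_le_mul ?_ (by linarith) (by linarith) (by positivity)
    have := dsa_two hα0
    linarith
  have hhi : (((M - k * (ghi + 1) : ℕ) : ℝ)) = M - k * (ghi + 1) := by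
    rw [Nat.cast_sub hA]
    push_cast
    ring
  have hE : 4 * e * M ≤ (((M - k * (ghi + 1) : ℕ) : ℝ) - ((k * ghi : ℕ) : ℝ)) * q ^ 2 := by
    have h1 : (1 - δ2) * M ≤ (M : ℝ) - k * (ghi + 1) - k * ghi := by linarith
    have h2 := mul_le_mul_of_nonneg_right h1 hq2.le
    have h3 : (1 - δ2) * M * q ^ 2 = 4 * e * M := by
      rw [← hδq]
      ring
    rw [hhi]
    push_cast
    linarith
  have hdrs := hDRS K ν ℓ α β κ n J (fun j => α / 2 * t j) (u ^ c) (Real.exp (u ^ c)) hℓ hα0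
    hβ0.le hκ0.le hHK hn1 hobj (fun j => mul_nonneg (by positivity) (ht j)) 2 ghi k M (k * ghi)
    (M - k * (ghi + 1)) le_rfl hT1 (by
      calc k * ghi = k * ghi * 1 := (mul_one _).symm
        _ ≤ k * ghi * n := Nat.mul_le_mul_left _ hn1) (by
      calc (M - k * (ghi + 1)) * n + k * (ghi + 1)
          ≤ (M - k * (ghi + 1)) * n + k * (ghi + 1) * n := by
            have : k * (ghi + 1) * 1 ≤ k * (ghi + 1) * n := Nat.mul_le_mul_left _ hn1
            omega
        _ = (M - k * (ghi + 1) + k * (ghi + 1)) * n := by ring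
        _ = M * n := by rw [Nat.sub_add_cancel hA]) (by
      have : k * (ghi + 1) = k * ghi + k := by ring
      have h2 : 2 * k * ghi = k * ghi + k * ghi := by ring
      omega) q (4 * e) hq0.le hq (by positivity) hE
  refine ⟨M * n, Nat.mul_pos hMn hn1, ?_, ?_⟩
  · have h1 : η / α ^ 2 * (((0 : ℕ) : ℝ) + 1 / 2) = β / 2 := by
      rw [hβ]
      push_cast
      ring
    rw [h1]
    push_cast
    exact hM3
  · refine hOMN K ν ℓ α β (M * n) J J _ _ _ _ _ _ hdrs le_rfl (fun j _ => ?_) ?_ ?_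
    · refine le_of_eq ?_
      ring
    · rw [pow_add]
      have h1 : (4 : ℝ) ≤ u ^ 4 := by
        have h2 : (4 : ℝ) ^ 4 ≤ u ^ 4 := pow_le_pow_left₀ (by norm_num) hu4 4
        norm_num at h2
        linarith
      rw [mul_comm]
      exact mul_le_mul_of_nonneg_left h1 (by positivity)
    · have h1 : (M : ℝ) ≤ Real.exp (β / 2) := by
        have : (M : ℝ) * 1 ≤ M * n := mul_le_mul_of_nonneg_left hn1r hM0.le
        linarith
      have h2 : (16 : ℝ) ≤ Real.exp 3 := by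
        have h3 := Real.exp_one_gt_d9
        have h4 : Real.exp 3 = Real.exp 1 ^ 3 := by
          rw [← Real.exp_nat_mul]
          norm_num
        rw [h4]
        have h5 : (2.7 : ℝ) ^ 3 ≤ Real.exp 1 ^ 3 := pow_le_pow_left₀ (by norm_num) (by linarith) 3
        norm_num at h5
        linarith
      calc 16 * (M : ℝ) * Real.exp (u ^ c)
          ≤ Real.exp 3 * Real.exp (β / 2) * Real.exp (u ^ c) := by
            refine mul_le_mul_of_nonneg_right ?_ (Real.exp_pos _).le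
            exact mul_le_mul h2 h1 hM0.le (Real.exp_pos _).le
        _ = Real.exp (3 + β / 2 + u ^ c) := by rw [Real.exp_add, Real.exp_add]
        _ ≤ Real.exp (u ^ (c + 4)) := by
            refine Real.exp_le_exp.2 ?_
            rw [hβu, pow_add]
            have h3 : η * u ^ 2 ≤ u * u ^ 2 := mul_le_mul_of_nonneg_right huη (by positivity)
            have h4 : (64 : ℝ) ≤ u ^ 3 := by
              have h9 : (4 : ℝ) ^ 3 ≤ u ^ 3 := pow_le_pow_left₀ (by norm_num) hu4 3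
              norm_num at h9
              exact h9
            have h5 : u ^ 4 = u * u ^ 3 := by ring
            have h6 : 4 * u ^ 3 ≤ u * u ^ 3 := mul_le_mul_of_nonneg_right hu4 (by positivity)
            have h7 : (u ^ 4 - 1) * 1 ≤ (u ^ 4 - 1) * u ^ c :=
              mul_le_mul_of_nonneg_left hv1 (by linarith)
            have h8 : u * u ^ 2 = u ^ 3 := by ring
            linarith

end Pool.Agent.H46.CEL
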